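import Mathlib

set_option autoImplicit false

namespace Pool.Agent.Results.MP_9e9a14_co.Unique

open Classical in
/-- The sum of the weights of the edges at `v`. -/
noncomputable def vsum {V : Type} [Fintype V] (G : SimpleGraph V) (w : G.edgeSet → ℕ) (v : V) :
    ℕ :=
  ∑ e : G.edgeSet, if v ∈ (e : Sym2 V) then w e else 0

/-- `w` is an edge 3-weighting properly colouring the vertices by sums. -/
def ProperWeighting {V : Type} [Fintype V] (G : SimpleGraph V) (w : G.edgeSet → ℕ) : Prop :=
  (∀ e, w e = 1 ∨ w e = 2 ∨ w e = 3) ∧ ∀ u v, G.Adj u v → vsum G w u ≠ vsum G w v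

/-- Isomorphic weightings. -/
def IsoWeighting {V : Type} (G : SimpleGraph V) (w w' : G.edgeSet → ℕ) : Prop :=
  ∃ φ : G ≃g G, ∀ e, w' (φ.mapEdgeSet e) = w e

abbrev K : SimpleGraph (Fin 3) := ⊤

/-- the edge opposite to a vertex -/
def opp (i : Fin 3) : K.edgeSet := ⟨s(i + 1, i + 2), by revert i; decide⟩

lemma opp_surj : ∀ e : K.edgeSet, ∃ i, opp i = e := by decide

lemma opp_inj : Function.Injective opp := by decide

lemma mem_opp : ∀ i v : Fin 3, v ∈ (opp i : Sym2 (Fin 3)) ↔ v ≠ i := by decide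

lemma vsum_eq (w : K.edgeSet → ℕ) (v : Fin 3) :
    vsum K w v + w (opp v) = w (opp 0) + w (opp 1) + w (opp 2) := by
  have h : vsum K w v = ∑ i : Fin 3, if v ≠ i then w (opp i) else 0 := by
    unfold vsum
    symm
    refine @Fintype.sum_bijective _ _ _ _ (_) _ opp ⟨opp_inj, opp_surj⟩ _ _ (fun i => ?_)
    by_cases hv : v ≠ i
    · rw [if_pos hv, if_pos ((mem_opp i v).2 hv)]
    · rw [if_neg hv, if_neg (fun h => hv ((mem_opp i v).1 h))]
  rw [h, Fin.sum_univ_three]
  fin_cases v <;> simp <;> omega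

lemma map_opp (σ : Equiv.Perm (Fin 3)) (i : Fin 3) :
    (SimpleGraph.Iso.completeGraph σ).mapEdgeSet (opp i) = opp (σ i) := by
  apply Subtype.ext
  show Sym2.map σ s(i + 1, i + 2) = s(σ i + 1, σ i + 2)
  revert σ i
  decide

lemma exists_perm (f : Fin 3 → ℕ) (h1 : ∀ i, f i = 1 ∨ f i = 2 ∨ f i = 3)
    (h2 : Function.Injective f) : ∃ σ : Equiv.Perm (Fin 3), ∀ i, f i = (σ i).val + 1 := by
  have hlt : ∀ i, f i - 1 < 3 := fun i => by have := h1 i; omega
  have hinj : Function.Injective (fun i => (⟨f i - 1, hlt i⟩ : Fin 3)) := by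
    intro a b hab
    apply h2
    have := congrArg Fin.val hab
    have ha := h1 a
    have hb := h1 b
    simp only at this
    omega
  refine ⟨Equiv.ofBijective _ ⟨hinj, Finite.injective_iff_surjective.1 hinj⟩, fun i => ?_⟩
  have := h1 i
  simp only [Equiv.ofBijective_apply]
  omega

lemma inj_of_proper (w : K.edgeSet → ℕ) (h : ProperWeighting K w) :
    Function.Injective (fun i => w (opp i)) := by
  intro a b hab
  by_contra hne
  apply h.2 a b hne
  have ha := vsum_eq w a
  have hb := vsum_eq w b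
  simp only at hab
  omega

theorem result : ∃ (V : Type) (_ : Fintype V) (G : SimpleGraph V), G.edgeSet.Nonempty ∧
    (∃ w, ProperWeighting G w) ∧
      ∀ w w', ProperWeighting G w → ProperWeighting G w' → IsoWeighting G w w' := by
  refine ⟨Fin 3, inferInstance, K, ⟨s(0, 1), by decide⟩, ?_, ?_⟩
  · let e := Equiv.ofBijective opp ⟨opp_inj, opp_surj⟩
    have he : ∀ i, e.symm (opp i) = i := fun i => e.symm_apply_apply i
    refine ⟨fun x => (e.symm x).val + 1, fun x => ?_, fun u v huv h => ?_⟩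
    · have := (e.symm x).isLt
      show (e.symm x).val + 1 = 1 ∨ (e.symm x).val + 1 = 2 ∨ (e.symm x).val + 1 = 3
      omega
    · have hu := vsum_eq (fun x => (e.symm x).val + 1) u
      have hv := vsum_eq (fun x => (e.symm x).val + 1) v
      simp only [he] at hu hv
      exact huv (Fin.ext (by omega))
  · intro w w' hw hw'
    obtain ⟨σ, hσ⟩ := exists_perm _ (fun i => hw.1 (opp i)) (inj_of_proper w hw)
    obtain ⟨τ, hτ⟩ := exists_perm _ (fun i => hw'.1 (opp i)) (inj_of_proper w' hw')
    refine ⟨SimpleGraph.Iso.completeGraph (σ.trans τ.symm), fun e => ?_⟩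
    obtain ⟨i, rfl⟩ := opp_surj e
    rw [map_opp, hτ, hσ]
    simp

end Pool.Agent.Results.MP_9e9a14_co.Unique
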